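import Pool.Agent.Helper40.Ct.Goals

/-!
Homotopy invariance.
-/

set_option autoImplicit false

open Finset

namespace Pool.Agent.Helper8.Ct

open Pool.Agent.Helper40.Ct

theorem frd_length {d : ℕ} (x : Fin d → ℤ) (σ : Equiv.Perm (Fin d)) :
    (frd x σ).length = d + 1 := by
  unfold frd
  rw [List.length_ofFn]

theorem Pf_single {α β : Type} (e : β) (f : List (α × β) → ℤ) (X : List α) (hX : X ≠ []) :
    Pf [e] f X = f (X.map fun y => (y, e)) := by
  cases X with
  | nil => exact absurd rfl hX
  | cons x xs => simp [Pf]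

theorem bdf_pair {β : Type} (g : List β → ℤ) (a b : β) : bdf g [a, b] = g [b] - g [a] := by
  unfold bdf
  simp [Finset.sum_range_succ]
  ring

theorem hom : EZ → GRB → HOM := by
  intro hez hgrb d M m f hd h1 h2
  have key : ∀ (x : Fin d → Fin M) (σ : Equiv.Perm (Fin d)),
      Pf [0, 1] (bdf f) (frd (corner x) σ) = bdf (Pf [0, 1] f) (frd (corner x) σ) +
        (-1) ^ d * (f ((frd (corner x) σ).map fun y => (y, (1 : Fin 2))) -
          f ((frd (corner x) σ).map fun y => (y, (0 : Fin 2)))) := by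
    intro x σ
    have hl := frd_length (corner x) σ
    have hne : frd (corner x) σ ≠ [] := by
      intro h
      rw [h] at hl
      simp at hl
    have := hez (Fin d → ℤ) (Fin 2) [0, 1] f (frd (corner x) σ) hne (by simp)
      (Or.inr (by simp))
    rw [this, hl, bdf_pair, Pf_single _ _ _ hne, Pf_single _ _ _ hne]
    simp
  have hG : Gr d M (bdf (Pf [0, 1] f)) = 0 := hgrb d M (Pf [0, 1] f) hd h2
  have hsum : m ∣ Gr d M (Pf [0, 1] (bdf f)) := by
    unfold Gr
    refine Finset.dvd_sum fun x _ => Finset.dvd_sum fun σ _ => ?_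
    exact Dvd.dvd.mul_left (h1 x σ) _
  have heq : Gr d M (Pf [0, 1] (bdf f)) = Gr d M (bdf (Pf [0, 1] f)) +
      (-1) ^ d * (Gr d M (fun X => f (X.map fun x => (x, (1 : Fin 2)))) -
        Gr d M (fun X => f (X.map fun x => (x, (0 : Fin 2))))) := by
    unfold Gr
    rw [← Finset.sum_sub_distrib, Finset.mul_sum, ← Finset.sum_add_distrib]
    refine Finset.sum_congr rfl fun x _ => ?_
    rw [← Finset.sum_sub_distrib, Finset.mul_sum, ← Finset.sum_add_distrib]
    refine Finset.sum_congr rfl fun σ _ => ?_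
    rw [key x σ]
    ring
  rw [hG, zero_add] at heq
  rw [heq] at hsum
  rcases neg_one_pow_eq_or ℤ d with h | h
  · rw [h, one_mul] at hsum
    exact hsum
  · rw [h, neg_one_mul, dvd_neg] at hsum
    exact hsum

end Pool.Agent.Helper8.Ct
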